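import Mathlib
import Pool.Agent.T2H02.Gap.Main

/-!
# The mass gap of lattice Yang-Mills theory in a box at weak coupling

Wilson's lattice gauge theory in the cube `{0, …, L - 1}^D` of space, with free boundary conditions,
for a closed subgroup `G` of `U(N)` whose Lie algebra is not zero and has no nonzero vector fixed by
`G` (for instance `SU(N)` with `2 ≤ N`, or any compact group whose Lie algebra is simple, in any
faithful representation). The transfer matrix is the integral operator on the functions of the link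
variables at a fixed time which advances the time by one lattice spacing and averages over the gauge
transformations (Gauss's law). The mass gap is the difference of the two lowest energies.

For `β ≥ C L ^ (96 D + 288)` the mass gap is `4 arsinh (√2 sin (π / (2 L)))` up to an error
`C / (L log β)`: it is positive, and the mass gap in units of the inverse side of the box tends to
`2 √2 π`, twice the lowest energy of a gluon in the box, as the lattice spacing `1 / L` tends to
zero, uniformly in such `β`.
-/

open MeasureTheory Matrix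

namespace Pool.Agent.Results.MP_7f377f_mp.FiniteVolumeMassGap

noncomputable section

/-- Square matrices. -/
abbrev Mt (N : ℕ) := Matrix (Fin N) (Fin N) ℂ

/-- The unitary group `U(N)`. -/
abbrev UU (N : ℕ) := Matrix.unitaryGroup (Fin N) ℂ

/-- The matrix of an element of a subgroup of `U(N)`. -/
def mt {N : ℕ} {G : Subgroup (UU N)} (g : G) : Mt N := ((g : UU N) : Mt N)

/-- The sites of the cube. -/
abbrev Site (D L : ℕ) := Fin D → Fin L

/-- The links of the cube: `(x, k)` is the link from `x` to `x + e_k`, both in the cube. -/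
abbrev Link (D L : ℕ) := {e : Site D L × Fin D // (e.1 e.2 : ℕ) + 1 < L}

section lattice

variable {N D L : ℕ} {G : Subgroup (UU N)}

/-- The site `x + e_k` (and `x` if `x + e_k` is not in the cube). -/
def next (x : Site D L) (k : Fin D) : Site D L :=
  if h : (x k : ℕ) + 1 < L then Function.update x k ⟨(x k : ℕ) + 1, h⟩ else x

/-- The variable of the link from `x` to `x + e_k` (and `1` if there is no such link). -/
def var (U : Link D L → G) (x : Site D L) (k : Fin D) : G :=
  if h : (x k : ℕ) + 1 < L then U ⟨(x, k), h⟩ else 1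

/-- The plaquette at `x` in the directions `i`, `j`. -/
def plaq (U : Link D L → G) (x : Site D L) (i j : Fin D) : G :=
  var U x i * var U (next x i) j * (var U (next x j) i)⁻¹ * (var U x j)⁻¹

/-- The magnetic energy: the sum of `Re tr (1 - U_p)` over the plaquettes of the cube. -/
def magnetic (U : Link D L → G) : ℝ := ∑ x : Site D L, ∑ i, ∑ j,
  if i < j ∧ (x i : ℕ) + 1 < L ∧ (x j : ℕ) + 1 < L then (trace (1 - mt (plaq U x i j))).re else 0

/-- The electric energy: the sum of `Re tr (1 - U_e V_e⁻¹)` over the links. -/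
def electric (U V : Link D L → G) : ℝ := ∑ e, (trace (1 - mt (U e * (V e)⁻¹))).re

/-- The gauge transformation `g`. -/
def gauge (g : Site D L → G) (U : Link D L → G) : Link D L → G :=
  fun e => g e.1.1 * U e * (g (next e.1.1 e.1.2))⁻¹

variable [MeasurableSpace G]

/-- The kernel of the transfer matrix of Wilson's action. -/
def kernel (μ : Measure G) (β : ℝ) (U V : Link D L → G) : ℝ :=
  ∫ g : Site D L → G, Real.exp (-(β * (1 / 2 * magnetic U + electric (gauge g U) V +
    1 / 2 * magnetic V))) ∂(Measure.pi fun _ => μ)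

/-- The transfer matrix. -/
def transfer (μ : Measure G) (β : ℝ) (f : (Link D L → G) → ℝ) (U : Link D L → G) : ℝ :=
  ∫ V, kernel μ β U V * f V ∂(Measure.pi fun _ => μ)

/-- The scalar product of two functions of the link variables. -/
def inner (μ : Measure G) (f g : (Link D L → G) → ℝ) : ℝ :=
  ∫ U, f U * g U ∂(Measure.pi fun _ => μ)

/-- The square of the largest eigenvalue of the transfer matrix. -/
def top (D L : ℕ) (μ : Measure G) (β : ℝ) : ℝ := sSup {s | ∃ f : (Link D L → G) → ℝ,
  Continuous f ∧ inner μ f f = 1 ∧ inner μ (transfer μ β f) (transfer μ β f) = s}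

/-- The square of the second largest eigenvalue of the transfer matrix. -/
def second (D L : ℕ) (μ : Measure G) (β : ℝ) : ℝ := sSup {s | ∃ f g : (Link D L → G) → ℝ,
  Continuous f ∧ Continuous g ∧ inner μ f f = 1 ∧ inner μ g g = 1 ∧ inner μ f g = 0 ∧
    ∀ a b : ℝ, s * (a ^ 2 + b ^ 2) ≤
      inner μ (transfer μ β fun U => a * f U + b * g U) (transfer μ β fun U => a * f U + b * g U)}

/-- The mass gap: the difference of the two lowest energies, the energy of an eigenvalue `t` of the
transfer matrix being `- log t`. -/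
def massGap (D L : ℕ) (μ : Measure G) (β : ℝ) : ℝ :=
  1 / 2 * Real.log (top D L μ β / second D L μ β)

end lattice

/-- `Y` is in the Lie algebra of `G`. -/
def IsLie {N : ℕ} (G : Subgroup (UU N)) (Y : Mt N) : Prop :=
  ∀ t : ℝ, ∃ g : G, mt g = NormedSpace.exp (t • Y)

/-! ### the proof -/

section proof

open Pool.Agent.H906R3.YM Pool.Agent.W793.YM Pool.Agent.TH618.YM Pool.Agent.T2H02.Gap
open scoped Matrix.Norms.Frobenius

set_option linter.unusedSectionVars false

variable {N D L : ℕ} {G : Subgroup (UU N)}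

lemma re_trace (g : G) : (trace (1 - FiniteVolumeMassGap.mt g)).re = en g := by
  have h1 : ‖(H906R3.YM.mt g : Mat N) - 1‖ ^ 2 =
      (trace (((H906R3.YM.mt g : Mat N) - 1)ᴴ * ((H906R3.YM.mt g : Mat N) - 1))).re := by
    rw [norm_sq_ip]; rfl
  have h2 : (H906R3.YM.mt g : Mat N)ᴴ * H906R3.YM.mt g = 1 :=
    (Matrix.mem_unitaryGroup_iff' (A := H906R3.YM.mt g)).1 (g : UN N).2
  have h3 : (((H906R3.YM.mt g : Mat N) - 1)ᴴ * ((H906R3.YM.mt g : Mat N) - 1)) =
      (1 - H906R3.YM.mt g) + (1 - H906R3.YM.mt g)ᴴ := by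
    rw [conjTranspose_sub, conjTranspose_one, conjTranspose_sub, conjTranspose_one, sub_mul,
      mul_sub, mul_sub, h2]
    simp only [mul_one, one_mul]
    abel
  unfold en dg
  rw [h1, h3, trace_add, trace_conjTranspose, Complex.add_re, Complex.star_def, Complex.conj_re]
  show (trace (1 - H906R3.YM.mt g)).re = _
  ring

lemma var_eq (U : Link D L → G) (x : Site D L) (k : Fin D) : var U x k = lv 1 U (cst x) k := by
  unfold var lv
  by_cases h : (x k : ℕ) + 1 < L
  · rw [dif_pos h, dif_pos ⟨cst_lt x, h⟩]
    rfl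
  · rw [dif_neg h, dif_neg (fun h' => h h'.2)]

lemma cst_next {x : Site D L} {k : Fin D} (h : (x k : ℕ) + 1 < L) :
    cst (next x k) = cst x + es k := by
  unfold next
  rw [dif_pos h]
  exact cst_tgt (⟨(x, k), h⟩ : Lk D L)

lemma magnetic_eq (U : Link D L → G) : magnetic U = mag U := by
  unfold magnetic mag
  refine Finset.sum_congr rfl fun x _ => Finset.sum_congr rfl fun i _ => Finset.sum_congr rfl
    fun j _ => ?_
  by_cases h : PIn x i j
  · have h' : i < j ∧ (x i : ℕ) + 1 < L ∧ (x j : ℕ) + 1 < L := h
    rw [if_pos h, if_pos h', re_trace]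
    congr 1
    unfold plaq H906R3.YM.plq
    rw [var_eq, var_eq, var_eq, var_eq, cst_next h'.2.1, cst_next h'.2.2]
  · have h' : ¬ (i < j ∧ (x i : ℕ) + 1 < L ∧ (x j : ℕ) + 1 < L) := h
    rw [if_neg h, if_neg h']

lemma electric_eq (U V : Link D L → G) : electric U V = kin U V := by
  unfold electric kin
  exact Finset.sum_congr rfl fun e _ => re_trace _

lemma gauge_eq (g : Site D L → G) (U : Link D L → G) : gauge g U = T2H02.Gap.gt g U := by
  funext e
  unfold gauge T2H02.Gap.gt src tgt next
  rw [dif_pos e.2]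

variable [CompactSpace G] [SecondCountableTopology G] [MeasurableSpace G] [BorelSpace G]
variable (μ : Measure G) [IsProbabilityMeasure μ] [μ.IsMulLeftInvariant]

lemma kernel_eq (β : ℝ) (U V : Link D L → G) : kernel μ β U V = KK μ β U V := by
  unfold kernel KK avk kk
  refine integral_congr_ae (Filter.Eventually.of_forall fun g => ?_)
  simp only
  rw [magnetic_eq, magnetic_eq, electric_eq, gauge_eq, mag_gt]

lemma transfer_eq (β : ℝ) (f : CF (Link D L → G) (νm μ D L)) (U : Link D L → G) :
    transfer μ β f.fn U = (opT (νm μ D L) (KK μ β) (KK_cont μ β) f).fn U := by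
  rw [opT_fn]
  unfold transfer
  refine integral_congr_ae (Filter.Eventually.of_forall fun V => ?_)
  simp only
  rw [kernel_eq]

lemma inner_eq (f g : CF (Link D L → G) (νm μ D L)) : FiniteVolumeMassGap.inner μ f.fn g.fn =
    Inner.inner ℝ f g := by
  rw [inner_cf]
  rfl

lemma inner_self (f : CF (Link D L → G) (νm μ D L)) : FiniteVolumeMassGap.inner μ f.fn f.fn =
    ‖f‖ ^ 2 := by
  rw [inner_eq, real_inner_self_eq_norm_sq]

lemma inner_transfer (β : ℝ) (f : CF (Link D L → G) (νm μ D L)) :
    FiniteVolumeMassGap.inner μ (transfer μ β f.fn) (transfer μ β f.fn) =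
      ‖opT (νm μ D L) (KK μ β) (KK_cont μ β) f‖ ^ 2 := by
  rw [← inner_self]
  have : transfer μ β f.fn = (opT (νm μ D L) (KK μ β) (KK_cont μ β) f).fn :=
    funext fun U => transfer_eq μ β f U
  rw [this]

lemma top_eq (β : ℝ) : top D L μ β = top2 (opT (νm μ D L) (KK μ β) (KK_cont μ β)) := by
  unfold top top2
  congr 1
  ext s
  constructor
  · rintro ⟨f, hf, h1, h2⟩
    refine ⟨CF.mk (νm μ D L) f hf, ?_, ?_⟩
    · rw [← inner_self]; exact h1
    · rw [← inner_transfer]; exact h2
  · rintro ⟨f, h1, h2⟩
    refine ⟨f.fn, CF.cont _ f, ?_, ?_⟩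
    · rw [inner_self]; exact h1
    · rw [inner_transfer]; exact h2

lemma second_eq (β : ℝ) : second D L μ β = sec2 (opT (νm μ D L) (KK μ β) (KK_cont μ β)) := by
  unfold second sec2 secSet
  congr 1
  ext s
  constructor
  · rintro ⟨f, g, hf, hg, h1, h2, h3, h4⟩
    refine ⟨CF.mk (νm μ D L) f hf, CF.mk (νm μ D L) g hg, ?_, ?_, ?_, ?_⟩
    · rw [← inner_self]; exact h1
    · rw [← inner_self]; exact h2
    · rw [← inner_eq]; exact h3
    · intro a b
      rw [← inner_transfer]
      exact h4 a b
  · rintro ⟨f, g, h1, h2, h3, h4⟩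
    refine ⟨f.fn, g.fn, CF.cont _ f, CF.cont _ g, ?_, ?_, ?_, ?_⟩
    · rw [inner_self]; exact h1
    · rw [inner_self]; exact h2
    · rw [inner_eq]; exact h3
    · intro a b
      have := h4 a b
      rw [← inner_transfer] at this
      exact this

omit [CompactSpace G] [SecondCountableTopology G] [MeasurableSpace G] [BorelSpace G] in
lemma span_isLie {n : ℕ} (hG : IsClosed (G : Set (UU N))) (B : Frame G n) {Y : Mt N}
    (hY : Y ∈ Submodule.span ℝ (Set.range B.X)) : IsLie G Y := by
  have h : Submodule.span ℝ (Set.range B.X) ≤ lieS hG := by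
    rw [Submodule.span_le]
    rintro _ ⟨a, rfl⟩
    exact fun t => ⟨B.ex a t, B.ex_eq a t⟩
  exact h hY

lemma lie_zero {n : ℕ} (B : Frame G n) (v : T2H02.Gap.En n) (h : lie B v = 0) : v = 0 := by
  have h1 : cm B (lie B v) = v := cm_lie B v
  rw [h, map_zero] at h1
  exact h1.symm

end proof

/-- **The mass gap of lattice Yang-Mills theory in a box at weak coupling.** Let `G` be a closed
subgroup of `U(N)` whose Lie algebra is not zero and has no nonzero vector which is fixed by `G`,
and let `2 ≤ D`. There is a constant `C` such that for all `2 ≤ L` and all `β` with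
`C L ^ (96 D + 288) ≤ β` the mass gap of the lattice gauge theory in the cube `{0, …, L - 1}^D` is
`4 arsinh (√2 sin (π / (2 L)))`, up to an error of at most `C / (L log β)`. -/
theorem result {N : ℕ} (G : Subgroup (UU N)) (hG : IsClosed (G : Set (UU N)))
    (h0 : ∃ Y, IsLie G Y ∧ Y ≠ 0)
    (hinv : ∀ Y, IsLie G Y → (∀ g : G, mt g * Y * (mt g)ᴴ = Y) → Y = 0)
    [MeasurableSpace G] [BorelSpace G] (μ : Measure G) [IsProbabilityMeasure μ] [μ.IsHaarMeasure]
    (D : ℕ) (hD : 2 ≤ D) :
    ∃ C : ℝ, ∀ L : ℕ, 2 ≤ L → ∀ β : ℝ, C * (L : ℝ) ^ (96 * D + 288) ≤ β →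
      0 < second D L μ β ∧ second D L μ β < top D L μ β ∧
      |massGap D L μ β - 4 * Real.arsinh (Real.sqrt 2 * Real.sin (Real.pi / (2 * L)))| ≤
        C / (L * Real.log β) := by
  have : CompactSpace G := isCompact_iff_compactSpace.1 hG.isCompact
  have : SecondCountableTopology (Mt N) :=
    inferInstanceAs (SecondCountableTopology (Fin N → Fin N → ℂ))
  have : SecondCountableTopology (UU N) := TopologicalSpace.Subtype.secondCountableTopology _
  have : SecondCountableTopology G := TopologicalSpace.Subtype.secondCountableTopology _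
  obtain ⟨n, ⟨B⟩⟩ := Pool.Agent.TH618.YM.exists_frame hG
  have hn : 0 < n := by
    rcases Nat.eq_zero_or_pos n with h | h
    · subst h
      obtain ⟨Y, hY, hY0⟩ := h0
      have h1 := B.full Y hY
      have h2 : Set.range B.X = ∅ := Set.range_eq_empty _
      rw [h2, Submodule.span_empty, Submodule.mem_bot] at h1
      exact absurd h1 hY0
    · exact h
  have hv : ∀ v : Pool.Agent.T2H02.Gap.En n,
      (∀ P : G, Pool.Agent.T2H02.Gap.adL B P v = v) → v = 0 := by
    intro v hv
    have h1 : Pool.Agent.T2H02.Gap.lie B v = 0 := by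
      refine hinv _ (span_isLie hG B (Pool.Agent.T2H02.Gap.lie_mem B v)) fun g => ?_
      have h2 := Pool.Agent.T2H02.Gap.lie_adL B g v
      rw [hv g, Pool.Agent.T2H02.Gap.mt_inv_ct] at h2
      exact h2.symm
    exact lie_zero B v h1
  obtain ⟨C, hC, h⟩ := Pool.Agent.T2H02.Gap.gap_main hD B hn hG μ hv
  refine ⟨C, fun L hL β hβ => ?_⟩
  obtain ⟨h1, h2, h3⟩ := h L hL β hβ
  unfold massGap
  rw [top_eq, second_eq]
  exact ⟨h2, h1, h3⟩

end

end Pool.Agent.Results.MP_7f377f_mp.FiniteVolumeMassGap
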