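import Pool.Agent.T2H02.TT.All2

/-!
# MP_7f377f_mp: confinement in four-dimensional `SU(N)` lattice Yang-Mills theory on a twisted tube

The lattice is `ℤ² × (ℤ/L)²` (points `Pt L`), with an 't Hooft twist `exp (2 π i k / N)`, `k` coprime
to `N`, through the torus `(ℤ/L)²`. The Wilson action `wact` is the sum of
`Re tr (1 - conj (twist) U_p)`. For all `β ≥ 0` the Wilson loops in the plane obey an area law. The
loops made of the centre elements nearest to the plane links, in a gauge which brings the torus links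
near to the vacuum `(P, Q)`, have a string tension between `exp (-C β)` and `exp (-c β)` for large `β`.
-/

set_option autoImplicit false

noncomputable section

open MeasureTheory Matrix T2H02.TT

namespace Pool.Agent.Results.MP_7f377f_mp.TwistedTubeTension

/-- Area law, and upper and lower bounds of the string tension at weak coupling, on a twisted tube. -/
theorem result (N k L : ℕ) [NeZero L] (hN : 2 ≤ N) (hk : Nat.Coprime k N) :
    (∀ β : ℝ, 0 ≤ β → ∀ (R : Finset Pl) (x : Pl) (y : Tor L) (a b : ℕ),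
      (∀ i j : ℕ, i ≤ a → j ≤ b → x + ((i : ℤ), (j : ℤ)) ∈ R) →
        ‖wexC N L k β R (fun X => wlp X x y a b)‖ ≤
          (1 - Real.exp (-2 * N * L ^ 2 * β)) ^ (a * b)) ∧
    ∀ P Q : SU N, PQ k P Q → ∃ ε c β₁ : ℝ, 0 < ε ∧ 0 < c ∧
      (∃ G : Ph N L → Tor L → SU N, GF P Q ε G) ∧
      ∀ G : Ph N L → Tor L → SU N, GF P Q ε G → ∀ β : ℝ, β₁ ≤ β → ∀ i j : ℕ,
        (1 - Real.exp (-c * β)) ^ ((i + 1) * (j + 1)) ≤
          Phi N L k β (fun X => (plo G X 0 (2 * (i + 1)) (2 * (j + 1))).re) ∧
        Phi N L k β (fun X => (plo G X 0 (2 * (i + 1)) (2 * (j + 1))).re) ≤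
          (1 - Real.exp (-2 * N * L ^ 2 * β)) ^ (2 * (i + 1) * (2 * (j + 1))) :=
  tens aP1 pO pSY aAR pRP pZL aDT pEG aPB aUB N k L hN hk

end Pool.Agent.Results.MP_7f377f_mp.TwistedTubeTension
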